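import Pool.Agent.Q298.MB.Stm

/-!
# Project MB of helper298: an identity in the minimal ideal (job ALG)
-/

set_option autoImplicit false

namespace Pool.Agent.Q198.MB

open Pool.Agent.Q206.PY Pool.Agent.Q298.MB

theorem t_ALG : J_ALG := by
  intro M _ _ N hN hid w u z A B hw hu
  obtain ⟨k, rfl⟩ := Nat.exists_eq_succ_of_ne_zero hN.ne'
  have hk : k.succ - 1 = k := by omega
  rw [hk]
  have hzw : IsMin (z * w) := hw.mul_left z
  set f : M := (w * A * u) ^ (k + 1) with hf
  have hff : f * f = f := hid _
  have f1 : f = w * (A * u * (w * A * u) ^ k) := by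
    rw [hf, pow_succ']
    simp only [mul_assoc]
  have f2 : f = ((w * A * u) ^ k * (w * A)) * u := by
    rw [hf, pow_succ]
    simp only [mul_assoc]
  have fw : f * w = w := by
    obtain ⟨c, hc⟩ := (hw.absorb hN hid (A * u * (w * A * u) ^ k)).1
    rw [← f1] at hc
    calc f * w = f * (f * c) := by rw [hc]
      _ = w := by rw [← mul_assoc, hff, hc]
  set e : M := (z * f) ^ (k + 1) with he
  have hee : e * e = e := hid _
  have e1 : e = (z * w) * (A * u * (w * A * u) ^ k * (z * f) ^ k) := by
    calc e = z * f * (z * f) ^ k := by rw [he, pow_succ']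
      _ = z * (w * (A * u * (w * A * u) ^ k)) * (z * f) ^ k := by rw [← f1]
      _ = _ := by simp only [mul_assoc]
  have e2 : e = ((z * f) ^ k * z * ((w * A * u) ^ k * (w * A))) * u := by
    calc e = (z * f) ^ k * (z * f) := by rw [he, pow_succ]
      _ = (z * f) ^ k * (z * (((w * A * u) ^ k * (w * A)) * u)) := by rw [← f2]
      _ = _ := by simp only [mul_assoc]
  have ue : u * e = u := by
    obtain ⟨c, hc⟩ := (hu.absorb hN hid ((z * f) ^ k * z * ((w * A * u) ^ k * (w * A)))).2
    rw [← e2] at hc
    calc u * e = c * e * e := by rw [hc]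
      _ = u := by rw [mul_assoc, hee, hc]
  have fe : f * e = f := by
    calc f * e = ((w * A * u) ^ k * (w * A)) * (u * e) := by
          rw [← mul_assoc, ← f2]
      _ = f := by rw [ue, ← f2]
  have fe2 : f * (z * f) ^ k * (z * f) = f := by
    rw [mul_assoc, ← pow_succ]
    exact fe
  have key : ∀ X : M, (w * X * u) * (z * (w * X * u)) ^ k = f * (z * f) ^ k * e := by
    intro X
    have h1 : (z * (w * X * u)) ^ (k + 1) = e := by
      refine idem_eq hN hid hzw hu (hid _) hee (m₁ := X * u * (z * (w * X * u)) ^ k)
        ?_ e1 (n₁ := (z * (w * X * u)) ^ k * (z * (w * X))) ?_ e2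
      · rw [pow_succ']
        simp only [mul_assoc]
      · rw [pow_succ]
        simp only [mul_assoc]
    set y : M := (w * X * u) * (z * (w * X * u)) ^ k with hy
    have h2 : z * y = e := by
      rw [hy, ← mul_assoc, ← pow_succ']
      exact h1
    have h3 : f * y = y := by
      rw [hy]
      calc f * (w * X * u * (z * (w * X * u)) ^ k) = (f * w) * (X * u * (z * (w * X * u)) ^ k) := by
            simp only [mul_assoc]
        _ = w * X * u * (z * (w * X * u)) ^ k := by
            rw [fw]
            simp only [mul_assoc]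
    calc y = f * y := h3.symm
      _ = (f * (z * f) ^ k * (z * f)) * y := by rw [fe2]
      _ = f * (z * f) ^ k * (z * (f * y)) := by simp only [mul_assoc]
      _ = f * (z * f) ^ k * e := by rw [h3, h2]
  rw [key A, key B]

end Pool.Agent.Q198.MB
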